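import Pool.Agent.Lib.RzE.Iff

/-!
MP_aeeb04_al. A criterion: a homomorphism `θ` on a normal subgroup `K` and an element `c` of `K` with
`θ (g⁻¹ c g) ≠ 1` for finitely many cosets `g K`, and for at least one.
-/

set_option autoImplicit false

namespace Pool.Agent.Results.MP_aeeb04_al.CharacterCriterion

open RzT RzE

theorem result {Γ A : Type} [Group Γ] [Group A] (K : Subgroup Γ) [K.Normal] (θ : Γ → A)
    (hθ : ∀ x ∈ K, ∀ y ∈ K, θ (x * y) = θ x * θ y) (c : Γ) (hc : c ∈ K)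
    (hfin : {y : Γ ⧸ K | ∃ g : Γ, (QuotientGroup.mk g : Γ ⧸ K) = y ∧ θ (g⁻¹ * c * g) ≠ 1}.Finite)
    (hne : ∃ g : Γ, θ (g⁻¹ * c * g) ≠ 1) :
    (Supra Γ ↔ Supra K ∧ ∀ S : Finset (Γ ⧸ K), Finite (Subgroup.closure (S : Set (Γ ⧸ K)))) ∧
    ((∃ f : Fin 2 → Γ, Function.Injective ⇑(FreeSemigroup.lift f)) ↔
      (∃ f : Fin 2 → K, Function.Injective ⇑(FreeSemigroup.lift f)) ∨
        ∃ w : Γ, ∀ k : ℕ, 0 < k → w ^ k ∉ K) ∧
    (Folner K → Folner (Γ ⧸ K) → ∃ m : Set Γ → ENNReal, m Set.univ = 1 ∧ InvMeas m) :=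
  RzE.exact K θ hθ c hc hfin hne

end Pool.Agent.Results.MP_aeeb04_al.CharacterCriterion
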